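import Pool.Agent.H.MP_ba8092_nt.C

set_option autoImplicit false

namespace Pool.Agent.Results.MP_ba8092_nt.Dim

open Filter Pool.Agent.H.MP_ba8092_nt

theorem result (q : ℕ → ℕ) (hq : ∀ n, 2 ≤ q n) (ht : Tendsto q atTop atTop)
    (hd : ∀ k, 1 ≤ k → Tendsto (Qk q k) atTop atTop) :
    dimH ({x : ℝ | ∀ k, 1 ≤ k → NormalOrd q k x} \ {x : ℝ | DistNormal q x}) = 1 ∧
    ∀ l, 1 ≤ l → dimH ({x : ℝ | ∀ j, l ≤ j → NormalOrd q j x} \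
      {x : ℝ | ∃ j, 1 ≤ j ∧ j < l ∧ NormalOrd q j x}) = 1 :=
  ⟨q1 hq ht hd, fun _ hl => q2 hq ht hd hl⟩

end Pool.Agent.Results.MP_ba8092_nt.Dim
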